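import Pool.Agent.Helper25.CC2.Scale
import Pool.Agent.Helper25.CC2.Stat

set_option autoImplicit false

namespace Pool.Agent.Results.MP_54abf9_lc.ClubBoundedChain

open Cardinal Ordinal Filter Set H74CC H25CC2

/-- If `(ℵ_(ω+1), ℵ_ω) ↠ (ℵ_2, ℵ_1)` then:
* there is a chain of length `ω_2` in `P(ℕ)` modulo finite sets;
* there is a sequence of length `ω_2` of functions from `ℕ` to a countable ordinal, strictly
  increasing modulo finite sets, which below every point `ν` of cofinality `ω_1` is bounded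
  everywhere by `x ν` on a club;
* there are countably many stationary sets of points of countable cofinality of `ω_2` which do not
  all reflect at the same point of cofinality `ω_1`. -/
theorem result (h : Chang (ℵ_ (ω + 1)) (ℵ_ ω) (ℵ_ 2) (ℵ_ 1)) :
    (∃ A : (ℵ_ 2 : Cardinal.{0}).ord.ToType → Set ℕ, ∀ i j, i < j →
      (A i \ A j).Finite ∧ (A j \ A i).Infinite) ∧
    (∃ ζ < ω_ 1, ∃ x : (ℵ_ 2 : Cardinal.{0}).ord.ToType → ℕ → Ordinal.{0},
      (∀ i m, x i m < ζ) ∧ (∀ i j, i < j → ∀ᶠ m in atTop, x i m < x j m) ∧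
      ∀ ν : (ℵ_ 2 : Cardinal.{0}).ord.ToType, Order.cof (Iio ν) = ℵ_ 1 →
        ∃ c : Set (Iio ν), IsClub c ∧ ∀ i ∈ c, ∀ m, x i.1 m ≤ x ν m) ∧
    ∃ S : ℕ → Set (ℵ_ 2 : Cardinal.{0}).ord.ToType,
      (∀ k, IsStationary (S k) ∧ ∀ i ∈ S k, Order.cof (Iio i) = ℵ₀) ∧
      ∀ ν : (ℵ_ 2 : Cardinal.{0}).ord.ToType, Order.cof (Iio ν) = ℵ_ 1 →
        ∃ k, ¬ IsStationary {i : Iio ν | i.1 ∈ S k} := by
  obtain ⟨E, F, hE, hF1, hF2, hFE⟩ := exists_scale2
  have hlt : ∀ a : V, ∀ n, F a n < (ℵ_ (ω + 1) : Cardinal.{0}).ord := fun a n => by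
    rw [ord_aleph]
    exact (hF1 a n).trans (omega_lt_omega.2 (Order.lt_add_one_iff.2 le_rfl))
  let Φ : V → ℕ → V := fun a n => ToType.mk ⟨F a n, hlt a n⟩
  have hΦ : ∀ a b : V, a < b → ∀ᶠ n in atTop, Φ a n < Φ b n := fun a b hab => by
    filter_upwards [hF2 a b hab] with n hn
    exact ToType.mk.lt_iff_lt.2 hn
  have hΦB : ∀ a m, ((Φ a m).toOrd : Ordinal.{0}) < ω_ ω := by
    intro a m
    change ((ToType.mk.symm (ToType.mk _) : Set.Iio _) : Ordinal.{0}) < ω_ ω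
    rw [OrderIso.symm_apply_apply]
    exact hF1 a m
  obtain ⟨D, hD, hX⟩ := chang_countable h Φ hΦB
  have hcb : ClubBounded := core D hD Φ hΦ E hE (fun b hb a ha n =>
    ToType.mk.le_iff_le.2 (Subtype.mk_le_mk.2 (hFE b hb a ha n))) hX
  exact ⟨chain_of_countable D hD Φ hΦ hX, hcb, stat_of_clubBounded hcb⟩

end Pool.Agent.Results.MP_54abf9_lc.ClubBoundedChain
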